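import Pool.Agent.Work.MP_8aa36a_lc.Main4

/-!
Faithful drawability of properly edge-coloured 4-regular graphs is complete for the existential
theory of the reals, even if only four colours are allowed.

The definitions of polynomial-time reductions (with Mathlib's machines
`Turing.TM2ComputableInPolyTime`), of the existential theory of the reals `ETR` and of
completeness are in `Pool.Agent.Work.PolyTime.ETR`.
-/

set_option autoImplicit false

namespace Pool.Agent.Results.MP_8aa36a_lc.FourColours

open Pool.Agent.Work.PolyTime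

/-- A graph with coloured edges, as the list of its edges: `(u, v, c)` is the edge with
endpoints `u`, `v` and colour `c`. The vertices are the endpoints of the edges (a 4-regular graph
has no isolated vertex). Vertices and colours are named by bit strings. -/
structure CGraph where
  edges : List (Name × Name × Name)

/-- `v` is an endpoint of the edge `e`. -/
def IsEnd (v : Name) (e : Name × Name × Name) : Prop := e.1 = v ∨ e.2.1 = v

instance (v : Name) (e : Name × Name × Name) : Decidable (IsEnd v e) :=
  inferInstanceAs (Decidable (_ ∨ _))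

/-- No loops and no multiple edges. -/
def CGraph.Simple (G : CGraph) : Prop :=
  (∀ e ∈ G.edges, e.1 ≠ e.2.1) ∧
  G.edges.Pairwise (fun e f => ¬ ((e.1 = f.1 ∧ e.2.1 = f.2.1) ∨ (e.1 = f.2.1 ∧ e.2.1 = f.1)))

/-- Two edges with a common endpoint have different colours. -/
def CGraph.Proper (G : CGraph) : Prop :=
  G.edges.Pairwise (fun e f => ∀ v, IsEnd v e → IsEnd v f → e.2.2 ≠ f.2.2)

/-- Every vertex is an endpoint of exactly four edges. -/
def CGraph.Regular4 (G : CGraph) : Prop :=
  ∀ v, (∃ e ∈ G.edges, IsEnd v e) → G.edges.countP (fun e => IsEnd v e) = 4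

/-- Faithful drawings: different vertices are placed at different points, the supporting lines of
the edges of each colour pass through a common point, the supporting lines of different edges
are different. -/
def CGraph.Faithful (G : CGraph) (p : Name → ℝ × ℝ) : Prop :=
  (∀ u v, (∃ e ∈ G.edges, IsEnd u e) → (∃ e ∈ G.edges, IsEnd v e) → u ≠ v → p u ≠ p v) ∧
  (∀ c, ∃ q : ℝ × ℝ, ∀ e ∈ G.edges, e.2.2 = c → q ∈ line[ℝ, p e.1, p e.2.1]) ∧
  (∀ e ∈ G.edges, ∀ f ∈ G.edges, e ≠ f → line[ℝ, p e.1, p e.2.1] ≠ line[ℝ, p f.1, p f.2.1])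

/-! Encoding of inputs by bit strings. -/

/-- A bit is written `0` or `100`. -/
def encBit : Bool → List Bool
  | false => [false]
  | true => [true, false, false]

/-- A list is written by writing `1` before each of its elements and `0` at the end. -/
def encList {α : Type} (e : α → List Bool) : List α → List Bool
  | [] => [false]
  | a :: l => true :: (e a ++ encList e l)

/-- A pair is written by writing `1`, the first and the second component. -/
def encPair {α β : Type} (e : α → List Bool) (f : β → List Bool) (x : α × β) : List Bool :=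
  true :: (e x.1 ++ f x.2)

/-- A name is written as the list of its bits. -/
def encName : Name → List Bool := encList encBit

/-- The bit string of a graph with coloured edges. -/
def CGraph.encode (G : CGraph) : List Bool :=
  encList (encPair encName (encPair encName encName)) G.edges

/-- The set of colours that occur. -/
def CGraph.Colours (G : CGraph) : Set Name := {c | ∃ e ∈ G.edges, e.2.2 = c}

/-- Faithful drawability, restricted to 4-regular graphs with at most `K` colours (for `K = ⊤`, the
number of colours is not restricted). -/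
def FaithfulDrawability4 (K : ℕ∞) : Set (List Bool) :=
  {w | ∃ G : CGraph, w = G.encode ∧ G.Simple ∧ G.Proper ∧ G.Regular4 ∧ G.Colours.encard ≤ K ∧
    ∃ p : Name → ℝ × ℝ, G.Faithful p}

/-! The encoding is the one used in the proof. -/

theorem encBit_eq (b : Bool) : encBit b = (code b).ser := by cases b <;> rfl

theorem encList_eq {α : Type} [Code α] {e : α → List Bool} (h : ∀ a, e a = (code a).ser)
    (l : List α) : encList e l = (code l).ser := by
  induction l with
  | nil => rfl
  | cons a l ih =>
    rw [encList, ih, h]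
    rfl

theorem encPair_eq {α β : Type} [Code α] [Code β] {e : α → List Bool} {f : β → List Bool}
    (h : ∀ a, e a = (code a).ser) (h' : ∀ a, f a = (code a).ser) (x : α × β) :
    encPair e f x = (code x).ser := by
  rw [encPair, h, h']
  rfl

theorem encode_eq (G : CGraph) : G.encode = (code G.edges).ser := by
  have h := encList_eq encBit_eq
  exact encList_eq (encPair_eq h (encPair_eq h h)) _

theorem valid_iff (G : CGraph) : Pool.Agent.Work.MP_8aa36a_lc.GValid G.edges ↔
    G.Simple ∧ G.Proper ∧ G.Regular4 := by
  constructor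
  · rintro ⟨h1, h2, h3, h4⟩
    refine ⟨⟨h1, h2⟩, h3, ?_⟩
    rintro v ⟨e, he, hv⟩
    rw [← h4 e he v hv]
    congr 1
    funext f
    rw [Bool.eq_iff_iff, Pool.Agent.Work.MP_8aa36a_lc.isEndB_iff, decide_eq_true_eq]
    exact Iff.rfl
  · rintro ⟨⟨h1, h2⟩, h3, h4⟩
    refine ⟨h1, h2, h3, ?_⟩
    intro e he v hv
    rw [← h4 v ⟨e, he, hv⟩]
    congr 1
    funext f
    rw [Bool.eq_iff_iff, Pool.Agent.Work.MP_8aa36a_lc.isEndB_iff, decide_eq_true_eq]
    exact Iff.rfl

theorem faithful_iff (G : CGraph) (p : Name → ℝ × ℝ) :
    Pool.Agent.Work.MP_8aa36a_lc.Faithful G.edges p ↔ G.Faithful p := by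
  constructor
  · rintro ⟨h1, h2, h3⟩
    refine ⟨?_, h2, h3⟩
    rintro u v ⟨e, he, hu⟩ ⟨f, hf, hv⟩ huv
    exact h1 e he f hf u v hu hv huv
  · rintro ⟨h1, h2, h3⟩
    refine ⟨?_, h2, h3⟩
    intro e he f hf u v hu hv huv
    exact h1 u v ⟨e, he, hu⟩ ⟨f, hf, hv⟩ huv

theorem FaithfulDrawability4_eq (K : ℕ∞) : FaithfulDrawability4 K =
    problem (Pool.Agent.Work.MP_8aa36a_lc.GValidK K) Pool.Agent.Work.MP_8aa36a_lc.GYes := by
  ext w
  constructor
  · rintro ⟨G, hw, h1, h2, h3, h4, p, hp⟩
    exact ⟨G.edges, by rw [hw, encode_eq], ⟨(valid_iff G).2 ⟨h1, h2, h3⟩, h4⟩, p,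
      (faithful_iff G p).2 hp⟩
  · rintro ⟨E, hw, ⟨h1, h5⟩, p, hp⟩
    obtain ⟨h2, h3, h4⟩ := (valid_iff ⟨E⟩).1 h1
    exact ⟨⟨E⟩, by rw [hw, encode_eq], h2, h3, h4, h5, p, (faithful_iff ⟨E⟩ p).1 hp⟩

/-- **Faithful drawability of 4-regular graphs is complete for the existential theory of the
reals**, and it remains so if the number of colours is at most `K`, for every `K ≥ 4`. -/
theorem result : ∀ K : ℕ∞, 4 ≤ K → ExistsRComplete (FaithfulDrawability4 K) := by
  intro K hK
  rw [FaithfulDrawability4_eq]
  exact Pool.Agent.Work.MP_8aa36a_lc.faith4_complete hK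

end Pool.Agent.Results.MP_8aa36a_lc.FourColours
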